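import Pool.Agent.Lib.MP_d216ef_co.Lin.F1c

namespace Pool.Agent.Results.MP_d216ef_co.LinearBound

open MeasureTheory Pool.Agent.Lib.BeerIndex

/-- For every `d ≥ 3` there is `α > 0` such that every `S ⊆ ℝ^d` for which the `(d-1)`-index of convexity
`b_{d-1}(S)` is defined satisfies `b_{d-1}(S) ≤ α c(S)`

* if every p-component of `S` is contractible (question Q1), and, more generally,
* if every continuous map of the sphere `S^{d-1}` to a p-component of `S` is nullhomotopic in it. -/
theorem result (d : ℕ) (hd : 3 ≤ d) : ∃ α : ℝ, 0 < α ∧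
    (∀ S : Set (EuclideanSpace ℝ (Fin d)), IndexDefined (d - 1) S →
      (∀ A ∈ S, ContractibleSpace (pComponent S A)) →
      convIndex (d - 1) S ≤ α * convRatio S) ∧
    (∀ S : Set (EuclideanSpace ℝ (Fin d)), IndexDefined (d - 1) S →
      (∀ A ∈ S, ∀ f : C(Metric.sphere (0 : EuclideanSpace ℝ (Fin d)) 1, pComponent S A),
        f.Nullhomotopic) →
      convIndex (d - 1) S ≤ α * convRatio S) := by
  obtain ⟨α, hα, h⟩ := Pool.Agent.Lib.BeerLin.main_linear d hd
  refine ⟨α, hα, fun S hS hc => h S hS ?_, h⟩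
  intro A hA f
  have := hc A hA
  have h1 := (id_nullhomotopic (pComponent S A)).comp_left f
  simpa using h1

end Pool.Agent.Results.MP_d216ef_co.LinearBound
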